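import Pool.Agent.Y435.TC.Five

/-!
# Laurentness in finitely many triangulation charts versus all cluster charts for PGL_3
-/

open Pool.Agent.H917R3.XC Pool.Agent.Y435.TC

namespace Pool.Agent.Results.MP_e62c8e_ag.ThreeFlips

/-- Let `Δ` be an ideal triangulation (without self-folded triangles) of a punctured surface. If the
surface is not the thrice-punctured sphere, then there are ideal triangulations, one for each
oriented edge of `Δ`, all obtained from `Δ` by at most three flips, such that every rational
function regular on the charts of `Δ` and of these triangulations is regular on all the cluster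
charts. If it is the thrice-punctured sphere, then some rational function is regular on the charts
of all the triangulations obtained by flips but not on all the cluster charts. Three flips are
optimal: for some ideal triangulation of the sphere with five punctures, some rational function is
regular on the charts of all the triangulations obtained by at most two flips but not on all the
cluster charts. -/
theorem result :
    (∀ (H V : Type) [Fintype H] [DecidableEq H] [Fintype V] [DecidableEq V] (Δ : Tri H V),
      Δ.IsIdeal →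
      (¬ Δ.HasType 0 3 → ∃ c : H → Tri H V × Seed V (FractionRing (MvPolynomial V ℂ)),
        (∀ x, FlipChart Δ Δ.seed 3 (c x).1 (c x).2 ∧ (c x).1.IsIdeal ∧
          (c x).2.ε = (c x).1.exchange) ∧
        ∀ f : FractionRing (MvPolynomial V ℂ),
          Δ.seed.Regular f → (∀ x, (c x).2.Regular f) →
          ∀ t, MutEquiv Δ.seed t → t.Regular f) ∧
      (Δ.HasType 0 3 → ∃ f : FractionRing (MvPolynomial V ℂ),
        (∀ n Δ' s', FlipChart Δ Δ.seed n Δ' s' → s'.Regular f) ∧
        ∃ t, MutEquiv Δ.seed t ∧ ¬ t.Regular f)) ∧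
    (∃ Δ : Tri (Fin 3 × Bool) ((Fin 3 × Bool) ⊕ Bool), Δ.IsIdeal ∧ Δ.HasType 0 3) ∧
    (∃ Δ : Tri (Fin 18) (Fin 24), Δ.IsIdeal ∧ Δ.HasType 0 5 ∧
      ∃ f : FractionRing (MvPolynomial (Fin 24) ℂ),
        (∀ Δ' s', FlipChart Δ Δ.seed 2 Δ' s' → s'.Regular f) ∧
        ∃ t, MutEquiv Δ.seed t ∧ ¬ t.Regular f) := by
  refine ⟨?_, ⟨sphere, sphere_ideal, sphere_type⟩, T0, T0_ideal, T0_type, sharp⟩
  intro H V _ _ _ _ Δ hΔ
  refine ⟨?_, ?_⟩
  · intro ht
    refine ⟨edgeChart (Δ, Δ.seed), fun x => ?_, ?_⟩
    · have h := edgeChart_reach (p := (Δ, Δ.seed)) hΔ x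
      exact ⟨h, TriChart.correct hΔ rfl h.triChart⟩
    · intro f r0 r t h
      exact Pool.Agent.Y435.TC.positive hΔ (notPillow_of_not_type hΔ ht) (seed_good hΔ) r0 r t h
  · intro ht
    obtain ⟨f, h1, h2⟩ := negative hΔ ht
    exact ⟨f, fun n Δ' s' h => h1 Δ' s' h.triChart, h2⟩

end Pool.Agent.Results.MP_e62c8e_ag.ThreeFlips
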